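import Pool.Agent.Helper23.Pcf.Fodor

/-!
Continuous sequences, ladders and clubs (pieces AGREE, LADDER, POINT).
-/

set_option autoImplicit false

open Cardinal Ordinal Set Filter Helper23.Pcf

universe u

namespace Helper81.CP

/-- two continuous increasing sequences which are cofinal in each other agree on a club -/
theorem agree {o : Ordinal.{u}} (ho : ℵ₀ < o.cof) (v w : Ordinal.{u} → Ordinal.{u})
    (hv : ∀ i j, i < j → j < o → v i < v j) (hw : ∀ i j, i < j → j < o → w i < w j)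
    (cv : ∀ i < o, Order.IsSuccLimit i → ∀ x < v i, ∃ j < i, x < v j)
    (cw : ∀ i < o, Order.IsSuccLimit i → ∀ x < w i, ∃ j < i, x < w j)
    (hvw : ∀ i < o, ∃ j < o, v i < w j) (hwv : ∀ i < o, ∃ j < o, w i < v j) :
    ClubIn {i | v i = w i} o := by
  have hlim : Order.IsSuccLimit o := Ordinal.one_lt_cof_iff.1 (one_lt_aleph0.trans ho)
  have hj1 : ∀ y, ∃ j, y < o → j < o ∧ v y < w j := by
    intro y
    by_cases hy : y < o
    · obtain ⟨j, h1, h2⟩ := hvw y hy
      exact ⟨j, fun _ => ⟨h1, h2⟩⟩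
    · exact ⟨0, fun h => absurd h hy⟩
  have hj2 : ∀ y, ∃ j, y < o → j < o ∧ w y < v j := by
    intro y
    by_cases hy : y < o
    · obtain ⟨j, h1, h2⟩ := hwv y hy
      exact ⟨j, fun _ => ⟨h1, h2⟩⟩
    · exact ⟨0, fun h => absurd h hy⟩
  choose j1 hj1 using hj1
  choose j2 hj2 using hj2
  refine ⟨?_, ?_⟩
  · intro x hx
    obtain ⟨z, hz, hxz, hz'⟩ := exists_iter ho (fun y => Order.succ (max y (max (j1 y) (j2 y))))
      (fun y hy => ⟨lt_of_le_of_lt (le_max_left _ _) (Order.lt_succ _),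
        hlim.succ_lt (max_lt hy (max_lt (hj1 y hy).1 (hj2 y hy).1))⟩) x hx
    refine ⟨z, ?_, hxz, hz⟩
    have hzl : Order.IsSuccLimit z := by
      refine UnbIn.isSuccLimit (C := Set.univ) (fun t ht => ?_) (lt_of_le_of_lt zero_le hxz)
      obtain ⟨y, h1, h2, _⟩ := hz' t ht
      exact ⟨y, trivial, h2, h1⟩
    refine le_antisymm (le_of_forall_lt fun t ht => ?_) (le_of_forall_lt fun t ht => ?_)
    · obtain ⟨j, hj, htj⟩ := cv z hz hzl t ht
      obtain ⟨y, hy, hjy, hgy⟩ := hz' j hj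
      have h1 : j1 y < z := lt_trans (lt_of_le_of_lt ((le_max_left _ _).trans (le_max_right _ _))
        (Order.lt_succ _)) hgy
      exact htj.trans ((hv j y hjy (hy.trans hz)).trans
        ((hj1 y (hy.trans hz)).2.trans (hw _ _ h1 hz)))
    · obtain ⟨j, hj, htj⟩ := cw z hz hzl t ht
      obtain ⟨y, hy, hjy, hgy⟩ := hz' j hj
      have h1 : j2 y < z := lt_trans (lt_of_le_of_lt ((le_max_right _ _).trans (le_max_right _ _))
        (Order.lt_succ _)) hgy
      exact htj.trans ((hw j y hjy (hy.trans hz)).trans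
        ((hj2 y (hy.trans hz)).2.trans (hv _ _ h1 hz)))
  · intro δ hδ hδ0 hu
    have hδl : Order.IsSuccLimit δ := hu.isSuccLimit hδ0
    refine le_antisymm (le_of_forall_lt fun t ht => ?_) (le_of_forall_lt fun t ht => ?_)
    · obtain ⟨j, hj, htj⟩ := cv δ hδ hδl t ht
      obtain ⟨y, hy, hjy, hyδ⟩ := hu j hj
      have hy' : v y = w y := hy
      exact htj.trans ((hv j y hjy (hyδ.trans hδ)).trans (hy' ▸ hw y δ hyδ hδ))
    · obtain ⟨j, hj, htj⟩ := cw δ hδ hδl t ht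
      obtain ⟨y, hy, hjy, hyδ⟩ := hu j hj
      have hy' : v y = w y := hy
      exact htj.trans ((hw j y hjy (hyδ.trans hδ)).trans (hy' ▸ hv y δ hyδ hδ))

/-- one ladder function for all limit ordinals -/
theorem ladder_exists : ∃ e : Ordinal.{u} → Ordinal.{u} → Ordinal.{u},
    ∀ δ, Order.IsSuccLimit δ → (∀ i j, i < j → e δ i < e δ j) ∧
      (∀ i, Order.IsSuccLimit i → ∀ x < e δ i, ∃ j < i, x < e δ j) ∧ e δ δ.cof.ord = δ := by
  have h : ∀ δ : Ordinal.{u}, ∃ ξ : Ordinal.{u} → Ordinal.{u}, Order.IsSuccLimit δ →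
      (∀ i j, i < j → ξ i < ξ j) ∧
      (∀ i, Order.IsSuccLimit i → ∀ x < ξ i, ∃ j < i, x < ξ j) ∧ ξ δ.cof.ord = δ := by
    intro δ
    by_cases hδ : Order.IsSuccLimit δ
    · obtain ⟨Φ, ξ, h1, h2⟩ := exists_cont_cofinal hδ
      exact ⟨ξ, fun _ => ⟨fun i j hij => cont_lt h1 hij,
        fun i hi x hx => cont_limit h1 hi.isSuccPrelimit hx, h2⟩⟩
    · exact ⟨id, fun h => absurd h hδ⟩
  choose e he using h
  exact ⟨e, he⟩

/-- a point of cofinality `ρ` in a club, with a small cofinal block of the club -/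
theorem point_exists {ρ ms : Cardinal.{u}} (hρ : ρ.IsRegular) (hρ0 : ℵ₀ < ρ)
    (hms : ms.IsRegular) (hlt : Order.succ ρ < ms) {E : Set Ordinal.{u}} (hE : ClubIn E ms.ord) :
    ∃ i < ms.ord, i.cof = ρ ∧ ∃ K : Set Ordinal.{u}, K ⊆ E ∧ K ⊆ Iio i ∧ UnbIn K i ∧
      #K ≤ Cardinal.lift.{u+1} ρ := by
  obtain ⟨C, h1, h2⟩ := club_guessing hρ hρ0 hms hlt
  obtain ⟨i, hi, hcof, hcl, hsub⟩ := h2 E hE
  have hlim : Order.IsSuccLimit i := by
    rw [← Ordinal.one_lt_cof_iff, hcof]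
    exact one_lt_aleph0.trans hρ0
  obtain ⟨E', h3, h4, h5⟩ := exists_small_club hlim
  refine ⟨i, hi, hcof, C i ∩ E', inter_subset_left.trans hsub, inter_subset_right.trans h4,
    (club_inter (by rw [hcof]; exact hρ0) hcl h3).unb, ?_⟩
  rw [hcof] at h5
  exact (Cardinal.mk_le_mk_of_subset inter_subset_right).trans h5

end Helper81.CP
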